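import Pool.Agent.H78.ValueSet

/-! A polarized endomorphism of `ℙ⁹` over `ℚ`, a subvariety `Z`, a morphism `g : Z → Z` and a
rational point whose return set to `g(Z(ℚ))` is not a finite union of arithmetic progressions. -/

namespace Pool.Agent.Results.MP_7e9602_ag.Counter

open Pool.Agent.H78.ValueSet

theorem result :
    ∃ (F : Fin 2 × Fin 5 → MvPolynomial (Fin 2 × Fin 5) ℚ) (d : ℕ)
      (E : Set (MvPolynomial (Fin 2 × Fin 5) ℚ))
      (G : Fin 5 → Fin 2 × Fin 5 → MvPolynomial (Fin 2 × Fin 5) ℚ) (α : Fin 2 × Fin 5 → ℚ),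
      IsPolarizedEndo F d ∧ IsSubvariety E ∧ IsSelfMorphism E G ∧ α ≠ 0 ∧
        ¬ IsFiniteUnionAP (ReturnSet F E G α) :=
  ⟨FF, 2, EE, GG, lineVec 2 1, polarized, subvariety, morphism,
    fun h => two_ne_zero (lineVec_eq_zero.1 h).1, by rw [returnSet]; exact not_AP⟩

end Pool.Agent.Results.MP_7e9602_ag.Counter
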